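import Pool.Agent.TH56.CM.Knn

/-!
# Supertrees decompose `K_{n,n}` for all `n ≥ m + 4 (L - 2) min (⌊log₂ (L - 1)⌋, 6)`

Let `T` be a tree with `m ≥ 1` edges, and let `L` be the number of leaves of the tree obtained from
`T` by deleting all leaves of `T`.  For every `n ≥ m + 4 (L - 2) min (⌊log₂ (L - 1)⌋, 6)` there is a
tree with `n` edges which contains `T` and decomposes `K_{n,n}`.
-/

set_option autoImplicit false

namespace Pool.Agent.Results.MP_c367c1_co.DerivedSupertrees

/-- The number of the vertices of `T` which are not leaves and have at most one neighbour that is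
not a leaf, i.e. of the vertices of degree at most `1` of the tree obtained from `T` by deleting all
leaves. -/
noncomputable def derivedLeaves {V : Type} (T : SimpleGraph V) : ℕ :=
  {x : V | 2 ≤ (T.neighborSet x).ncard ∧
    {y : V | T.Adj x y ∧ 2 ≤ (T.neighborSet y).ncard}.ncard ≤ 1}.ncard

/-- The complete bipartite graph `K_{n,n}` (on two copies of `ZMod n`) decomposes into copies of `T'`:
there are `n` copies of `T'` in `K_{n,n}` such that every edge lies in exactly one of them, once. -/
def DecomposesKnn {W : Type} (T' : SimpleGraph W) (n : ℕ) : Prop :=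
  ∃ φ : Fin n → W → ZMod n ⊕ ZMod n, (∀ i, Function.Injective (φ i)) ∧
    (∀ i u v, T'.Adj u v → (completeBipartiteGraph (ZMod n) (ZMod n)).Adj (φ i u) (φ i v)) ∧
    ∀ e ∈ (completeBipartiteGraph (ZMod n) (ZMod n)).edgeSet,
      ∃! p : Fin n × Sym2 W, p.2 ∈ T'.edgeSet ∧ Sym2.map (φ p.1) p.2 = e

/-- Let `T` be a finite tree with `m ≥ 1` edges, `L` the number of leaves of the tree obtained from
`T` by deleting all leaves, and `n ≥ m + 4 (L - 2) min (⌊log₂ (L - 1)⌋, 6)` (truncated subtraction).
Then there is a tree `T'` with `n` edges which contains `T` as a subgraph and decomposes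
`K_{n,n}`. -/
theorem result (V : Type) [Fintype V] (T : SimpleGraph V) (hT : T.IsTree)
    (he : 1 ≤ T.edgeSet.ncard) (n : ℕ)
    (hn : T.edgeSet.ncard + 4 * (derivedLeaves T - 2) *
      min (Nat.log 2 (derivedLeaves T - 1)) 6 ≤ n) :
    ∃ (W : Type) (_ : Fintype W) (T' : SimpleGraph W), T'.IsTree ∧ T'.edgeSet.ncard = n ∧
      T.IsContained T' ∧ DecomposesKnn T' n := by
  obtain ⟨M, hR, hM⟩ := Pool.Agent.TH56.CM.rlx_both hT he
  have hM' : M ≤ T.edgeSet.ncard +
    2 * (derivedLeaves T - 2) * min (Nat.log 2 (derivedLeaves T - 1)) 6 := hM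
  have h2 : 4 * (derivedLeaves T - 2) * min (Nat.log 2 (derivedLeaves T - 1)) 6 =
      2 * (2 * (derivedLeaves T - 2) * min (Nat.log 2 (derivedLeaves T - 1)) 6) := by ring
  exact hR.knn hT he n (by omega)

end Pool.Agent.Results.MP_c367c1_co.DerivedSupertrees
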