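import Pool.Agent.TH830.J1013
import Pool.Agent.TH830.J1014

/-!
# Supertrees of every tree decompose `K_{n,n}`, for all `n ≥ m + min (|A|, |B|) - 1`

Every tree with `m ≥ 1` edges and stable sets `A`, `B` is contained, for every integer
`n ≥ m + min (|A|, |B|) - 1` (even or odd; in particular for every `n ≥ (3 m - 1) / 2`), in a tree with
`n` edges that decomposes `K_{n,n}`.
-/

set_option autoImplicit false

namespace Pool.Agent.Results.MP_c367c1_co.SuperTrees

/-- The complete bipartite graph `K_{n,n}` (on two copies of `ZMod n`) decomposes into copies of `T'`: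
there are `n` copies of `T'` in `K_{n,n}` such that every edge lies in exactly one of them, once. -/
def DecomposesKnn {W : Type} (T' : SimpleGraph W) (n : ℕ) : Prop :=
  ∃ φ : Fin n → W → ZMod n ⊕ ZMod n, (∀ i, Function.Injective (φ i)) ∧
    (∀ i u v, T'.Adj u v → (completeBipartiteGraph (ZMod n) (ZMod n)).Adj (φ i u) (φ i v)) ∧
    ∀ e ∈ (completeBipartiteGraph (ZMod n) (ZMod n)).edgeSet,
      ∃! p : Fin n × Sym2 W, p.2 ∈ T'.edgeSet ∧ Sym2.map (φ p.1) p.2 = e

/-- `A` is the set of the vertices `v` with `c v = true`, `B` the set of those with `c v = false`. -/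
theorem result (V : Type) [Fintype V] (T : SimpleGraph V) (hT : T.IsTree) (c : V → Bool)
    (hc : ∀ u v, T.Adj u v → c u ≠ c v) (m a n : ℕ) (hm : T.edgeSet.ncard = m) (hm1 : 1 ≤ m)
    (ha : min {v | c v = true}.ncard {v | c v = false}.ncard = a)
    (hn : m + a - 1 ≤ n ∨ 3 * m ≤ 2 * n + 1) :
    ∃ (W : Type) (_ : Fintype W) (T' : SimpleGraph W), T'.IsTree ∧ T'.edgeSet.ncard = n ∧
      T.IsContained T' ∧ DecomposesKnn T' n := by
  classical
  have hcard : Fintype.card V = m + 1 := by
    have h1 := hT.card_edgeFinset
    rw [← hm, Set.ncard_eq_toFinset_card', ← h1]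
    rfl
  have htot : {v | c v = true}.ncard + {v | c v = false}.ncard = m + 1 := by
    have h1 : {v | c v = false} = {v | c v = true}ᶜ := by
      ext v
      simp
    rw [h1, Set.ncard_add_ncard_compl, Nat.card_eq_fintype_card, hcard]
  have ha2' : 2 * a ≤ m + 1 := by
    have h1 := min_le_left {v | c v = true}.ncard {v | c v = false}.ncard
    have h2 := min_le_right {v | c v = true}.ncard {v | c v = false}.ncard
    omega
  obtain ⟨s, hs, hs2⟩ : ∃ s : Bool, {v | c v = s}.ncard = a ∧ a ≤ {v | c v ≠ s}.ncard := by
    rcases le_total {v | c v = true}.ncard {v | c v = false}.ncard with h | h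
    · refine ⟨true, by rw [← ha, min_eq_left h], ?_⟩
      rw [← ha, min_eq_left h]
      simpa using h
    · refine ⟨false, by rw [← ha, min_eq_right h], ?_⟩
      rw [← ha, min_eq_right h]
      simpa using h
  have hn' : m + a - 1 ≤ n := by omega
  have hn1 : 1 ≤ n := by
    rcases hn with h | h
    · have ha1 : 1 ≤ a := by
        by_contra h2
        have h4 : ∀ v, c v ≠ s := by
          intro v hv
          have h5 : {v | c v = s}.ncard = 0 := by omega
          rw [Set.ncard_eq_zero (Set.toFinite _)] at h5
          have : v ∈ {v | c v = s} := hv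
          rw [h5] at this
          exact this
        have h5 : ∃ e, e ∈ T.edgeSet := by
          by_contra h6
          push Not at h6
          have h7 : T.edgeSet = ∅ := Set.eq_empty_iff_forall_notMem.2 h6
          rw [h7, Set.ncard_empty] at hm
          omega
        obtain ⟨e, he⟩ := h5
        induction e using Sym2.ind with
        | _ x y =>
          have h8 : c x ≠ c y := hc x y he
          have h9 := h4 x
          have h10 := h4 y
          revert h8 h9 h10
          cases c x <;> cases c y <;> cases s <;> simp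
      omega
    · omega
  have : NeZero n := ⟨by omega⟩
  obtain ⟨g, w, l, hg1, hg2, hg3, hg4, hg5, hg6⟩ :=
    Pool.Agent.TH830.J1014.exists_assignment hT c hc s m a n hm hm1 hs hs2 hn'
  have hmiss : ∀ t : ZMod n, Pool.Agent.TH830.J1013.Missing T (fun v => (g v : ZMod n)) t →
      ∀ u v, T.Adj u v → g u + g v ≠ t.val := by
    intro t ht u v h h1
    apply ht u v h
    have h2 : ((g u + g v : ℕ) : ZMod n) = ((t.val : ℕ) : ZMod n) := by rw [h1]
    rw [ZMod.natCast_zmod_val] at h2
    rw [← h2]
    push_cast
    rfl
  have hval : ∀ t : ZMod n, t.val < n := fun t => ZMod.val_lt t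
  have hcast : ∀ x y : ℕ, x < n → y < n → (x : ZMod n) = (y : ZMod n) → x = y := by
    intro x y hx hy h
    have h1 := congrArg ZMod.val h
    rwa [ZMod.val_cast_of_lt hx, ZMod.val_cast_of_lt hy] at h1
  obtain ⟨W, iW, T', h1, h2, h3, h4⟩ :=
    Pool.Agent.TH830.J1013.decomposes_of_assignment hT c hc n hn1 (fun v => (g v : ZMod n))
      (fun u v huv h => hg2 u v huv (hcast _ _ (hg1 u) (hg1 v) h))
      (fun u v u' v' huv hu'v' h => by
        refine hg4 u v u' v' huv hu'v' (hcast _ _ (hg3 u v huv) (hg3 u' v' hu'v') ?_)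
        push_cast
        exact h)
      (fun t => w t.val) (fun t => (l t.val : ZMod n))
      (fun t ht => by
        obtain ⟨h1, h2, h3⟩ := hg5 t.val (hval t) (hmiss t ht)
        have h4 : ((g (w t.val) + l t.val : ℕ) : ZMod n) = t := by
          rcases h2 with h2 | h2
          · rw [h2, ZMod.natCast_zmod_val]
          · rw [h2]
            push_cast
            rw [ZMod.natCast_zmod_val, ZMod.natCast_self, add_zero]
        have h5 : ((g (w t.val) + l t.val : ℕ) : ZMod n) = (g (w t.val) : ZMod n) + (l t.val : ZMod n) := by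
          push_cast
          rfl
        rw [← h5, h4])
      (fun t ht v hv h => by
        obtain ⟨h1, h2, h3⟩ := hg5 t.val (hval t) (hmiss t ht)
        exact h3 v hv (hcast _ _ (hg1 v) h1 h))
      (fun t t' ht ht' hcc hll => by
        obtain ⟨h1, -, -⟩ := hg5 t.val (hval t) (hmiss t ht)
        obtain ⟨h2, -, -⟩ := hg5 t'.val (hval t') (hmiss t' ht')
        exact ZMod.val_injective n (hg6 t.val t'.val (hval t) (hval t') (hmiss t ht) (hmiss t' ht') hcc
          (hcast _ _ h1 h2 hll)))
  exact ⟨W, iW, T', h1, h2, h3, h4⟩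

end Pool.Agent.Results.MP_c367c1_co.SuperTrees
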